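import Mathlib

/-!
# MUM/L-DC: double centraliser and complete reducibility for the commutant of a finite group

`ρ` is a representation of a finite group `G` on a finite-dimensional space `V` over a field of characteristic zero.
`comm_comm`: a linear map which commutes with the commutant of `G` is a linear combination of the `ρ g` (Maschke and the
Jacobson density theorem).  `exists_compl`: a subspace stable under the commutant has a complement stable under the
commutant (the commutant is a semisimple ring).
-/

namespace Pool.Agent.MUM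

open Representation

variable {F : Type*} [Field F] [CharZero F] {G : Type*} [Group G] [Finite G] {V : Type*} [AddCommGroup V]
  [Module F V] [FiniteDimensional F V] (ρ : Representation F G V)

/-- the linear maps which commute with `G` -/
def Comm (T : V →ₗ[F] V) : Prop := ∀ g, ρ g ∘ₗ T = T ∘ₗ ρ g

omit [FiniteDimensional F V] in
private theorem dc_ss : IsSemisimpleModule (MonoidAlgebra F G) ρ.asModule := by
  have : NeZero (Nat.card G : F) := ⟨by
    have h := Nat.card_pos (α := G)
    exact_mod_cast h.ne'⟩
  infer_instance

/-- an endomorphism over the group algebra as a linear map -/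
private noncomputable def dc_lin (T : Module.End (MonoidAlgebra F G) ρ.asModule) : V →ₗ[F] V :=
  ρ.asModuleEquiv.toLinearMap ∘ₗ (T.restrictScalars F) ∘ₗ ρ.asModuleEquiv.symm.toLinearMap

omit [CharZero F] [Finite G] [FiniteDimensional F V] in
private theorem dc_lin_apply (T : Module.End (MonoidAlgebra F G) ρ.asModule) (v : V) :
    dc_lin ρ T v = ρ.asModuleEquiv (T (ρ.asModuleEquiv.symm v)) := rfl

omit [CharZero F] [Finite G] [FiniteDimensional F V] in
private theorem dc_lin_comm (T : Module.End (MonoidAlgebra F G) ρ.asModule) :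
    Comm ρ (dc_lin ρ T) := by
  intro g
  ext v
  rw [LinearMap.comp_apply, LinearMap.comp_apply, dc_lin_apply, dc_lin_apply,
    asModuleEquiv_symm_map_rho, map_smul, asModuleEquiv_map_smul]
  simp

omit [CharZero F] [Finite G] [FiniteDimensional F V] in
private theorem dc_alg (r : MonoidAlgebra F G) :
    ρ.asAlgebraHom r ∈ Submodule.span F (Set.range ρ) := by
  classical
  induction r using MonoidAlgebra.induction_linear with
  | zero => rw [map_zero]; exact Submodule.zero_mem _
  | add f g hf hg => rw [map_add]; exact Submodule.add_mem _ hf hg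
  | single g c =>
    rw [asAlgebraHom_single]
    exact Submodule.smul_mem _ _ (Submodule.subset_span ⟨g, rfl⟩)

/-- a linear map which commutes with the commutant of `G` is a linear combination of the `ρ g` -/
theorem comm_comm (M : V →ₗ[F] V) (hM : ∀ T, Comm ρ T → M ∘ₗ T = T ∘ₗ M) :
    M ∈ Submodule.span F (Set.range ρ) := by
  classical
  have := dc_ss ρ
  let f : Module.End (Module.End (MonoidAlgebra F G) ρ.asModule) ρ.asModule :=
    { toFun := fun m => ρ.asModuleEquiv.symm (M (ρ.asModuleEquiv m))
      map_add' := fun m m' => by simp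
      map_smul' := fun T m => by
        have h := hM (dc_lin ρ T) (dc_lin_comm ρ T)
        have h1 := LinearMap.congr_fun h (ρ.asModuleEquiv m)
        rw [LinearMap.comp_apply, LinearMap.comp_apply, dc_lin_apply, dc_lin_apply,
          LinearEquiv.symm_apply_apply] at h1
        rw [RingHom.id_apply, Module.End.smul_def, Module.End.smul_def, h1,
          LinearEquiv.symm_apply_apply] }
  let b := Module.finBasis F V
  obtain ⟨r, hr⟩ := jacobson_density f (Finset.univ.image fun i => ρ.asModuleEquiv.symm (b i))
  have h1 : M = ρ.asAlgebraHom r := by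
    refine b.ext fun i => ?_
    have h2 := hr _ (Finset.mem_image_of_mem _ (Finset.mem_univ i))
    have h3 := congrArg ρ.asModuleEquiv h2
    rw [asModuleEquiv_map_smul, LinearEquiv.apply_symm_apply] at h3
    rw [← h3]
    show M (b i) = ρ.asModuleEquiv (ρ.asModuleEquiv.symm (M (ρ.asModuleEquiv (ρ.asModuleEquiv.symm (b i)))))
    rw [LinearEquiv.apply_symm_apply, LinearEquiv.apply_symm_apply]
  rw [h1]
  exact dc_alg ρ r

omit [CharZero F] [Finite G] [FiniteDimensional F V] in
/-- an element of the commutant as an endomorphism over the group algebra -/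
private theorem dc_end (T : V →ₗ[F] V) (hT : Comm ρ T) :
    ∃ T' : Module.End (MonoidAlgebra F G) ρ.asModule, dc_lin ρ T' = T := by
  have key : ∀ (r : MonoidAlgebra F G) (v : V), T (ρ.asAlgebraHom r v) = ρ.asAlgebraHom r (T v) := by
    intro r v
    induction r using MonoidAlgebra.induction_linear with
    | zero => simp
    | add f g hf hg => rw [map_add, LinearMap.add_apply, LinearMap.add_apply, map_add, hf, hg]
    | single g c =>
      rw [asAlgebraHom_single, LinearMap.smul_apply, LinearMap.smul_apply, map_smul]
      congr 1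
      exact (LinearMap.congr_fun (hT g) v).symm
  refine ⟨{ toFun := fun m => ρ.asModuleEquiv.symm (T (ρ.asModuleEquiv m))
            map_add' := fun m m' => by simp
            map_smul' := fun r m => ?_ }, ?_⟩
  · apply ρ.asModuleEquiv.injective
    rw [RingHom.id_apply, asModuleEquiv_map_smul, LinearEquiv.apply_symm_apply, key,
      asModuleEquiv_map_smul, LinearEquiv.apply_symm_apply]
  · ext v
    rw [dc_lin_apply]
    show ρ.asModuleEquiv (ρ.asModuleEquiv.symm (T (ρ.asModuleEquiv (ρ.asModuleEquiv.symm v)))) = T v
    rw [LinearEquiv.apply_symm_apply, LinearEquiv.apply_symm_apply]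

/-- a subspace stable under the commutant of `G` has a complement stable under the commutant -/
theorem exists_compl (N : Submodule F V) (hN : ∀ T, Comm ρ T → ∀ v ∈ N, T v ∈ N) :
    ∃ N' : Submodule F V, IsCompl N N' ∧ ∀ T, Comm ρ T → ∀ v ∈ N', T v ∈ N' := by
  classical
  have := dc_ss ρ
  have hfin : Module.Finite (MonoidAlgebra F G) ρ.asModule := by
    have : Module.Finite F ρ.asModule := Module.Finite.equiv ρ.asModuleEquiv.symm
    exact Module.Finite.of_restrictScalars_finite F (MonoidAlgebra F G) ρ.asModule
  let E := Module.End (MonoidAlgebra F G) ρ.asModule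
  have hE : IsSemisimpleRing E := IsSemisimpleRing.moduleEnd _ _
  have hmod : IsSemisimpleModule E ρ.asModule := inferInstance
  -- `N` over `E`
  let NE : Submodule E ρ.asModule :=
    { carrier := {m | ρ.asModuleEquiv m ∈ N}
      add_mem' := fun {a b} ha hb => by
        show ρ.asModuleEquiv (a + b) ∈ N
        rw [map_add]; exact N.add_mem ha hb
      zero_mem' := by
        show ρ.asModuleEquiv 0 ∈ N
        rw [map_zero]; exact N.zero_mem
      smul_mem' := fun T m hm => by
        show ρ.asModuleEquiv (T m) ∈ N
        have h := hN (dc_lin ρ T) (dc_lin_comm ρ T) (ρ.asModuleEquiv m) hm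
        rwa [dc_lin_apply, LinearEquiv.symm_apply_apply] at h }
  obtain ⟨NE', hc⟩ := exists_isCompl NE
  have hsm : ∀ (c : F) (m : ρ.asModule), m ∈ NE' → ρ.asModuleEquiv.symm (c • ρ.asModuleEquiv m) ∈ NE' := by
    intro c m hm
    have hT : Comm ρ (c • LinearMap.id) := fun g => by
      ext v; simp
    obtain ⟨T', hT'⟩ := dc_end ρ _ hT
    have h1 := NE'.smul_mem T' hm
    have h2 : T' • m = ρ.asModuleEquiv.symm (c • ρ.asModuleEquiv m) := by
      have h3 := LinearMap.congr_fun hT' (ρ.asModuleEquiv m)
      rw [dc_lin_apply, LinearEquiv.symm_apply_apply] at h3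
      apply ρ.asModuleEquiv.injective
      rw [LinearEquiv.apply_symm_apply]
      exact h3
    rwa [h2] at h1
  let N' : Submodule F V :=
    { carrier := {v | ρ.asModuleEquiv.symm v ∈ NE'}
      add_mem' := fun {a b} ha hb => by
        show ρ.asModuleEquiv.symm (a + b) ∈ NE'
        rw [map_add]; exact NE'.add_mem ha hb
      zero_mem' := by
        show ρ.asModuleEquiv.symm 0 ∈ NE'
        rw [map_zero]; exact NE'.zero_mem
      smul_mem' := fun c v hv => by
        have h := hsm c (ρ.asModuleEquiv.symm v) hv
        rwa [LinearEquiv.apply_symm_apply] at h }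
  refine ⟨N', ⟨?_, ?_⟩, ?_⟩
  · rw [Submodule.disjoint_def]
    intro v hv hv'
    have h1 : ρ.asModuleEquiv.symm v ∈ NE := by
      show ρ.asModuleEquiv (ρ.asModuleEquiv.symm v) ∈ N
      rwa [LinearEquiv.apply_symm_apply]
    have h2 := (Submodule.disjoint_def.1 hc.disjoint) _ h1 hv'
    exact (LinearEquiv.map_eq_zero_iff _).1 h2
  · rw [codisjoint_iff, eq_top_iff]
    intro v _
    have h1 : ρ.asModuleEquiv.symm v ∈ NE ⊔ NE' := by
      rw [codisjoint_iff.1 hc.codisjoint]; exact Submodule.mem_top
    obtain ⟨a, ha, b, hb, hab⟩ := Submodule.mem_sup.1 h1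
    refine Submodule.mem_sup.2 ⟨ρ.asModuleEquiv a, ha, ρ.asModuleEquiv b, ?_, ?_⟩
    · show ρ.asModuleEquiv.symm (ρ.asModuleEquiv b) ∈ NE'
      rwa [LinearEquiv.symm_apply_apply]
    · rw [← map_add, hab, LinearEquiv.apply_symm_apply]
  · intro T hT v hv
    obtain ⟨T', hT'⟩ := dc_end ρ T hT
    have h1 : T' • ρ.asModuleEquiv.symm v ∈ NE' := NE'.smul_mem T' hv
    show ρ.asModuleEquiv.symm (T v) ∈ NE'
    have h2 : T' • ρ.asModuleEquiv.symm v = ρ.asModuleEquiv.symm (T v) := by
      apply ρ.asModuleEquiv.injective
      rw [LinearEquiv.apply_symm_apply, ← hT', dc_lin_apply]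
      rfl
    rwa [h2] at h1

end Pool.Agent.MUM
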